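import Pool.Agent.Lib.MP_ffa969_co.Main

set_option autoImplicit false

open Pool.Agent.Lib.MP_ffa969_co

namespace Pool.Agent.Results.MP_ffa969_co.ThreeColours

/-- The continuous graph of every finite planar graph is `(1/2, 3)`-colourable. -/
theorem result (V : Type) [Fintype V] [DecidableEq V] (G : SimpleGraph V) (hG : IsPlanar G) :
    Colourable G (1 / 2) 3 :=
  planar_colourable V G hG

end Pool.Agent.Results.MP_ffa969_co.ThreeColours
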